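import Pool.Agent.Helper57_C2.Stmts
import Pool.Agent.Helper24_K9.Duc
import Pool.Agent.Helper69_K9.Fmg

/-!
# C2, modules DUG, GDV: the blocks of `C(Q)` (model: `Helper24_K9/Duc.lean`)
-/

open scoped BigOperators Pointwise

set_option linter.unusedSectionVars false

noncomputable section

namespace Pool.Agent.PP.C2.H3

open Pool.Agent.Helper51_AWC Pool.Agent.Helper79_WRA Pool.Agent.PP Pool.Agent.PP.KF
open Pool.Agent.PP.K9
open Pool.Agent.PP.K9.H97 (Ix Bx)

section core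

variable {F G : Type} [Field F] [Group G] [Finite G] {ℓ : ℕ} [hfact : Fact ℓ.Prime]

theorem core (hF : GoodF ℓ F) {e : G → F} (he : IsIdem e)
    {Q : Subgroup G} (hQ : IsPGroup ℓ Q)
    (hab : ∀ P : Subgroup G, IsPGroup ℓ P → Gd e P → ∀ a ∈ P, ∀ b ∈ P, a * b = b * a)
    {N C : Subgroup G}
    (hNdef : N = Subgroup.normalizer (Q : Set G)) (hCdef : C = Subgroup.centralizer (Q : Set G))
    (hdun : ∀ f : N → F, IsBlk f → mulF (fun t : N => br Q e t) f = f →
      ∃ P : Subgroup N, IsPGroup ℓ P ∧ Gd f P ∧ Q.subgroupOf N < P)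
    {gh : G → F} (hBg : Bx C gh) (hegh : mulF (br Q e) gh = gh) :
    ∃ P : Subgroup G, IsPGroup ℓ P ∧ Q < P ∧ P ≤ C ∧ (∀ a ∈ P, ∀ b ∈ P, a * b = b * a) ∧
      Gd gh P := by
  classical
  have hQN : Q ≤ N := by
    rw [hNdef]
    exact Subgroup.le_normalizer
  have hCN : C ≤ N := by
    rw [hNdef, hCdef]
    exact Subgroup.centralizer_le_normalizer _
  have hconjQ : ∀ n ∈ N, ∀ q, q ∈ Q ↔ n * q * n⁻¹ ∈ Q := by
    intro n hn q
    rw [hNdef] at hn
    exact Subgroup.mem_normalizer_iff.1 hn q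
  have hconjC0 : ∀ n ∈ N, ∀ x ∈ C, n * x * n⁻¹ ∈ C := by
    intro n hn x hx
    rw [hCdef, Subgroup.mem_centralizer_iff] at hx ⊢
    intro q hq
    have h1 : n⁻¹ * q * n ∈ Q := by
      have h2 := (hconjQ n⁻¹ (N.inv_mem hn) q).1 hq
      rwa [inv_inv] at h2
    have h2 := hx _ h1
    calc q * (n * x * n⁻¹) = n * ((n⁻¹ * q * n) * x) * n⁻¹ := by group
      _ = n * (x * (n⁻¹ * q * n)) * n⁻¹ := by rw [h2]
      _ = (n * x * n⁻¹) * q := by group
  have hconjC : ∀ n ∈ N, ∀ x, x ∈ C ↔ n * x * n⁻¹ ∈ C := by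
    intro n hn x
    refine ⟨hconjC0 n hn x, fun h => ?_⟩
    have h1 := hconjC0 n⁻¹ (N.inv_mem hn) _ h
    have h2 : n⁻¹ * (n * x * n⁻¹) * n⁻¹⁻¹ = x := by group
    rwa [h2] at h1
  have hNC : N ≤ Subgroup.normalizer (C : Set G) := by
    intro n hn
    rw [Subgroup.mem_normalizer_iff]
    exact hconjC n hn
  have hghs : ∀ x, x ∉ C → gh x = 0 := hBg.supp
  have hbrs : ∀ x, x ∉ C → br Q e x = 0 := by
    intro x hx
    rw [hCdef] at hx
    exact H66.br_of_not_mem hx
  -- the idempotent of `N`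
  have hbrN : ∀ x, x ∉ N → br Q e x = 0 := fun x hx => hbrs x (fun h => hx (hCN h))
  have hinv : H66.Inv Q e := H66.IsCl.inv he.1 Q
  have hIN : IsIdem (fun t : N => br Q e t) := by
    refine ⟨?_, ?_⟩
    · intro x y
      show br Q e ((y : G) * x * (y : G)⁻¹) = br Q e x
      by_cases hx : (x : G) ∈ C
      · have h2 := (hconjC y y.2 x).1 hx
        rw [hCdef] at hx h2
        rw [H66.br_of_mem hx, H66.br_of_mem h2]
        exact he.1 _ _
      · rw [hbrs _ hx, hbrs]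
        intro h
        exact hx ((hconjC y y.2 x).2 h)
    · rw [← H75.mulF_res N (br Q e) hbrN, ← H66.br_mulF hF hQ hinv hinv, he.2]
  have hgN0 : (fun t : N => gh t) ≠ 0 := by
    intro h
    apply hBg.ne
    exact H75.eq_of_res (fun x hx => hghs x (fun h => hx (hCN h))) (fun _ _ => rfl) h
  have hgN : mulF (fun t : N => br Q e t) (fun t : N => gh t) = fun t : N => gh t := by
    rw [← H75.mulF_res N gh hbrN, hegh]
  obtain ⟨f, hf, hef, hfg⟩ := K9.H24.exists_blk
    (L := fun a : N → F => mulF a (fun t : N => gh t))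
    (H75.mulF_zero_left _) (fun a b => K9.H24.mulF_add_l a b _) hIN (by
      show mulF (fun t : N => br Q e t) (fun t : N => gh t) ≠ 0
      rw [hgN]
      exact hgN0)
  obtain ⟨P, hP, hgP, hQP⟩ := hdun f hf hef
  -- the support of `f`
  have hfs : ∀ t : N, f t ≠ 0 → (t : G) ∈ C := by
    have hpN : IsPGroup ℓ (Q.subgroupOf N) := hQ.comap_subtype
    have hnorm : (Q.subgroupOf N).Normal := by
      rw [hNdef]
      exact Subgroup.normal_in_normalizer
    have hbr : br (Q.subgroupOf N) f = f := KF.H55.br_idem hF hnorm hpN hf.1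
    intro t ht
    by_contra h
    apply ht
    rw [← hbr]
    apply H66.br_of_not_mem
    intro h'
    apply h
    rw [hCdef, Subgroup.mem_centralizer_iff]
    intro q hq
    have h1 : (⟨q, hQN hq⟩ : N) ∈ Q.subgroupOf N := hq
    exact congrArg Subtype.val (Subgroup.mem_centralizer_iff.1 h' _ h1)
  obtain ⟨t, ht, hft⟩ := hgP
  have htC : (t : G) ∈ C := hfs t hft
  -- the group `P` in `G`
  obtain ⟨P', hP'def⟩ : ∃ P' : Subgroup G, P' = P.map N.subtype := ⟨_, rfl⟩
  have hcP' : Nat.card P' = Nat.card P := by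
    rw [hP'def]
    exact Subgroup.card_map_of_injective N.subtype_injective
  have hPP' : IsPGroup ℓ P' := by
    rw [hP'def]
    exact hP.map _
  have hcen : ∀ s : N, s ∈ Subgroup.centralizer (P : Set N) →
      (s : G) ∈ Subgroup.centralizer (P' : Set G) := by
    intro s hs
    rw [Subgroup.mem_centralizer_iff]
    intro x hx
    rw [hP'def] at hx
    obtain ⟨p, hp, rfl⟩ := hx
    exact congrArg Subtype.val (Subgroup.mem_centralizer_iff.1 hs p hp)
  have hGe : Gd e P' := by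
    by_contra hcon
    apply hft
    have h1 : br P (fun t : N => br Q e t) = 0 := by
      funext s
      by_cases hs : s ∈ Subgroup.centralizer (P : Set N)
      · rw [H66.br_of_mem hs]
        show br Q e s = 0
        by_cases hsC : (s : G) ∈ Subgroup.centralizer (Q : Set G)
        · rw [H66.br_of_mem hsC]
          by_contra h
          exact hcon ⟨s, hcen s hs, h⟩
        · exact H66.br_of_not_mem hsC
      · exact H66.br_of_not_mem hs
    have h2 : br P f = 0 := by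
      rw [← hef, H66.br_mulF hF hP (H66.IsCl.inv hIN.1 P) (H66.IsCl.inv hf.1.1 P), h1,
        H75.mulF_zero_left]
    have h3 := congrFun h2 t
    rwa [H66.br_of_mem ht] at h3
  have hQP' : Q ≤ P' := by
    intro q hq
    rw [hP'def]
    exact ⟨⟨q, hQN hq⟩, hQP.le hq, rfl⟩
  have hcomm := hab P' hPP' hGe
  have hP'C : P' ≤ C := by
    intro p hp
    rw [hCdef, Subgroup.mem_centralizer_iff]
    intro q hq
    exact hcomm q (hQP' hq) p hp
  have hcQ : Nat.card Q < Nat.card P' := by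
    have h1 : Nat.card (Q.subgroupOf N) < Nat.card P := by
      have h2 : (Q.subgroupOf N : Set N) ⊂ (P : Set N) := hQP
      have h3 := Set.ncard_lt_ncard h2 (Set.toFinite _)
      rwa [← Nat.card_coe_set_eq, ← Nat.card_coe_set_eq] at h3
    rw [hcP']
    rwa [Nat.card_congr (Subgroup.subgroupOfEquivOfLe hQN).toEquiv] at h1
  -- the function `f` on `G`
  obtain ⟨fh, hfh⟩ : ∃ fh : G → F, fh = H75.ext0 N f := ⟨_, rfl⟩
  have hfhs : ∀ x, x ∉ N → fh x = 0 := by
    rw [hfh]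
    exact H75.ext0_supp N f
  have hfhN : (fun t : N => fh t) = f := by
    rw [hfh]
    exact funext (H75.ext0_apply N f)
  have hBf : Bx N fh := ⟨hfhs, by rw [hfhN]; exact hf⟩
  have hfhC : ∀ x, x ∉ C → fh x = 0 := by
    intro x hx
    by_cases hxN : x ∈ N
    · have h1 : fh x = f ⟨x, hxN⟩ := congrFun hfhN ⟨x, hxN⟩
      rw [h1]
      by_contra h
      exact hx (hfs _ h)
    · exact hfhs x hxN
  have hIf : Ix C fh := by
    refine ⟨hfhC, ?_, ?_⟩
    · intro x y
      exact hBf.blk.1.1 ⟨x, hCN x.2⟩ ⟨y, hCN y.2⟩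
    · rw [← H75.mulF_res C fh hfhC, hBf.mul]
  have hfg' : mulF fh gh = gh := by
    rw [hIf.comm hBg.ix]
    rcases hBg.dich' hIf with h | h
    · exact h
    · exfalso
      apply hfg
      rw [← hfhN, ← H75.mulF_res N gh hfhs, hIf.comm hBg.ix, h]
      rfl
  obtain ⟨γ, hγ, hfγ, hγt⟩ := K9.H24.exists_blk (L := fun a : C → F => a ⟨t, htC⟩) rfl
    (fun a b => rfl) hIf.idem (by
      show fh t ≠ 0
      have h1 : fh t = f t := congrFun hfhN t
      rw [h1]
      exact hft)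
  obtain ⟨γh, hγh⟩ : ∃ γh : G → F, γh = H75.ext0 C γ := ⟨_, rfl⟩
  have hγhs : ∀ x, x ∉ C → γh x = 0 := by
    rw [hγh]
    exact H75.ext0_supp C γ
  have hγhC : (fun t : C => γh t) = γ := by
    rw [hγh]
    exact funext (H75.ext0_apply C γ)
  have hfγ' : mulF fh γh = γh := by
    apply H75.eq_of_res (H75.mulF_supp C hfhC hγhs) hγhs
    rw [H75.mulF_res C γh hfhC, hγhC, hfγ]
  obtain ⟨n, hn, hnx⟩ := Pool.Agent.PP.K9.H97.orb ℓ F hF G N C hCN hNC fh hfhC
    (by rw [hfhN]; exact hf) γh gh hγhs hghs (by rw [hγhC]; exact hγ) hBg.blk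
    hfγ' hfg'
  -- the conjugate
  have hval : gh (n⁻¹ * t * n) ≠ 0 := by
    rw [hnx]
    have h1 : n * (n⁻¹ * (t : G) * n) * n⁻¹ = t := by group
    rw [h1]
    have h2 : γh t = γ ⟨t, htC⟩ := congrFun hγhC ⟨t, htC⟩
    rw [h2]
    exact hγt
  obtain ⟨W, hW⟩ : ∃ W : Subgroup G, W = conjS n⁻¹ P' := ⟨_, rfl⟩
  have hWmem : ∀ x, x ∈ W ↔ n * x * n⁻¹ ∈ P' := by
    intro x
    rw [hW, mem_conjS, inv_inv]
  have hWC : W ≤ C := by
    intro x hx
    exact (hconjC n hn x).2 (hP'C ((hWmem x).1 hx))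
  have hWcard : Nat.card W = Nat.card P' := by rw [hW, KF.H55.card_conj4]
  have hQW : Q ≤ W := by
    intro q hq
    exact (hWmem q).2 (hQP' ((hconjQ n hn q).1 hq))
  refine ⟨W, ?_, ?_, hWC, ?_, n⁻¹ * t * n, ?_, hval⟩
  · rw [hW]
    exact hPP'.map _
  · refine lt_of_le_of_ne hQW ?_
    intro h
    rw [h, hWcard] at hcQ
    exact lt_irrefl _ hcQ
  · intro a ha b hb
    have h1 := hcomm _ ((hWmem a).1 ha) _ ((hWmem b).1 hb)
    calc a * b = n⁻¹ * ((n * a * n⁻¹) * (n * b * n⁻¹)) * n := by group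
      _ = n⁻¹ * ((n * b * n⁻¹) * (n * a * n⁻¹)) * n := by rw [h1]
      _ = b * a := by group
  · rw [Subgroup.mem_centralizer_iff]
    intro x hx
    have h1 : n * x * n⁻¹ ∈ P' := (hWmem x).1 hx
    have h2 := Subgroup.mem_centralizer_iff.1 (hcen t ht) _ h1
    calc x * (n⁻¹ * t * n) = n⁻¹ * ((n * x * n⁻¹) * t) * n := by group
      _ = n⁻¹ * (t * (n * x * n⁻¹)) * n := by rw [h2]
      _ = (n⁻¹ * t * n) * x := by group

end core

attribute [local instance] Ideal.Quotient.field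

/-- good subgroups are abelian if the defect group is -/
theorem good_comm {ℓ : ℕ} [Fact ℓ.Prime] {M : Ideal (integralClosure ℤ ℂ)} [M.IsMaximal]
    (hM : (ℓ : integralClosure ℤ ℂ) ∈ M) {G : Type} [Group G] [Finite G] {e : G → FF M}
    (he : IsBlk e) {V : Subgroup G} (hV : Tp ℓ e V) (hVc : ∀ a ∈ V, ∀ b ∈ V, a * b = b * a)
    (P : Subgroup G) (hP : IsPGroup ℓ P) (hg : Gd e P) : ∀ a ∈ P, ∀ b ∈ P, a * b = b * a := by
  obtain ⟨g, hg⟩ := (K9.H69.fmg ℓ M hM G e he V hV).1 P hP hg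
  intro a ha b hb
  have h1 := mem_conjS.1 (hg ha)
  have h2 := mem_conjS.1 (hg hb)
  have h3 := hVc _ h1 _ h2
  calc a * b = g * ((g⁻¹ * a * g) * (g⁻¹ * b * g)) * g⁻¹ := by group
    _ = g * ((g⁻¹ * b * g) * (g⁻¹ * a * g)) * g⁻¹ := by rw [h3]
    _ = b * a := by group

/-- DUG -/
theorem dug : DugStmt := by
  intro ℓ hfact M _ hM G _ _ e he V hV hVc Q hQ _ hlt g hg heg
  have hF : GoodF ℓ (FF M) := H50.fld ℓ hfact.out M hM
  exact core hF he.1 hQ (good_comm hM he hV hVc) rfl rfl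
    (fun f hf hef => K9.H24.dun K9.H69.fmg ℓ M hM G e he V hV Q hQ hlt f hf hef) ⟨hg.off, hg.blk⟩ heg

end Pool.Agent.PP.C2.H3
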