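import Pool.Agent.Helper3_C2.DUG

/-!
# C2, module GDV: the blocks of `C(Q)` have defect groups of order `|V|`
-/

open scoped BigOperators Pointwise

noncomputable section

namespace Pool.Agent.PP.C2.H3

open Pool.Agent.Helper51_AWC Pool.Agent.Helper79_WRA Pool.Agent.PP Pool.Agent.PP.KF
open Pool.Agent.PP.K9
open Pool.Agent.PP.K9.H97 (Ix Bx)

section

variable {F G : Type} [Field F] [Group G]

theorem br_br {P R : Subgroup G} (h : P ≤ R) (a : G → F) : br R (br P a) = br R a := by
  funext t
  by_cases ht : t ∈ Subgroup.centralizer (R : Set G)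
  · rw [H66.br_of_mem ht, H66.br_of_mem ht,
      H66.br_of_mem (Subgroup.centralizer_le (show (P : Set G) ⊆ R from h) ht)]
  · rw [H66.br_of_not_mem ht, H66.br_of_not_mem ht]

theorem br_ne_of_gd {P : Subgroup G} {a : G → F} (h : Gd a P) : br P a ≠ 0 := by
  obtain ⟨x, hx, hx2⟩ := h
  intro h0
  apply hx2
  rw [← H66.br_of_mem (a := a) hx, h0]
  rfl

theorem gd_of_br' {e : G → F} {R : Subgroup G} (h : br R e ≠ 0) : Gd e R := by
  by_contra h0
  apply h
  funext t
  by_cases ht : t ∈ Subgroup.centralizer (R : Set G)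
  · rw [H66.br_of_mem ht]
    by_contra h1
    exact h0 ⟨t, ht, h1⟩
  · exact H66.br_of_not_mem ht

theorem ix_br [Finite G] {ℓ : ℕ} (hF : GoodF ℓ F) {b : G → F} {P : Subgroup G}
    (hP : IsPGroup ℓ P) (h1 : ∀ y ∈ Subgroup.centralizer (P : Set G), ∀ x, b (y * x * y⁻¹) = b x)
    (hinv : H66.Inv P b) (hbb : mulF b b = b) :
    Ix (Subgroup.centralizer (P : Set G)) (br P b) := by
  refine ⟨fun x hx => H66.br_of_not_mem hx, ?_, ?_⟩
  · intro x y
    show br P b ((y : G) * x * (y : G)⁻¹) = br P b x
    rw [H66.br_of_mem x.2, H66.br_of_mem (mul_mem (mul_mem y.2 x.2) (inv_mem y.2))]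
    exact h1 _ y.2 _
  · rw [← H75.mulF_res (Subgroup.centralizer (P : Set G)) (br P b)
      (fun x hx => H66.br_of_not_mem hx), ← H66.br_mulF hF hP hinv hinv, hbb]

theorem ix_inv [Finite G] {X : Subgroup G} {b : G → F} (h : Ix X b) {y : G} (hy : y ∈ X)
    (x : G) : b (y * x * y⁻¹) = b x :=
  (H75.cj_eq_iff _ _).1 (h.inv hy) x

end

attribute [local instance] Ideal.Quotient.field

/-- GDV -/
theorem gdv (dug : DugStmt) : GdvStmt := by
  intro ℓ hfact M _ hM G _ _ e he V hV hVc
  have hF : GoodF ℓ (FF M) := H50.fld ℓ hfact.out M hM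
  have key : ∀ n : ℕ, ∀ Q : Subgroup G, Nat.card V - Nat.card Q = n → IsPGroup ℓ Q →
      ∀ g : G → FF M, Bk (Subgroup.centralizer (Q : Set G)) g → mulF (br Q e) g = g →
      ∃ P : Subgroup G, IsPGroup ℓ P ∧ Q ≤ P ∧ P ≤ Subgroup.centralizer (Q : Set G) ∧
        Nat.card P = Nat.card V ∧ Gd g P := by
    intro n
    induction n using Nat.strong_induction_on with
    | _ n ih =>
      intro Q hn hQ g hg heg
      have hBg : Bx (Subgroup.centralizer (Q : Set G)) g := ⟨hg.off, hg.blk⟩
      have hQe : Gd e Q := by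
        apply gd_of_br'
        intro h0
        apply hBg.ne
        rw [← heg, h0, H75.mulF_zero_left]
      have hQab := good_comm hM he hV hVc Q hQ hQe
      have hle := hV.mx Q hQ hQe
      rcases hle.eq_or_lt with heq | hlt
      · refine ⟨Q, hQ, le_rfl, ?_, heq, ?_⟩
        · intro a ha
          rw [Subgroup.mem_centralizer_iff]
          intro b hb
          exact hQab b hb a ha
        · obtain ⟨x, hx⟩ := Function.ne_iff.1 hBg.ne
          refine ⟨x, ?_, hx⟩
          by_contra h
          exact hx (hg.off x h)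
      · obtain ⟨P, hP, hQP, hPC, hPab, hgP⟩ := dug ℓ M hM G e he V hV hVc Q hQ hQab hlt g hg heg
        have hCC : Subgroup.centralizer (P : Set G) ≤ Subgroup.centralizer (Q : Set G) :=
          Subgroup.centralizer_le (show (Q : Set G) ⊆ P from hQP.le)
        have hinvP : H66.Inv P g := fun p hp t => ix_inv hBg.ix (hPC hp) t
        have hIg : Ix (Subgroup.centralizer (P : Set G)) (br P g) :=
          ix_br hF hP (fun y hy x => ix_inv hBg.ix (hCC hy) x) hinvP hBg.mul
        have hbrg : br P g ≠ 0 := br_ne_of_gd hgP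
        have hIQ : Ix (Subgroup.centralizer (Q : Set G)) (br Q e) :=
          ix_br hF hQ (fun y _ x => he.1.1 x y) (H66.IsCl.inv he.1.1 Q) he.1.2
        have hinvQ : H66.Inv P (br Q e) := fun p hp t => ix_inv hIQ (hPC hp) t
        have hPeg : mulF (br P e) (br P g) = br P g := by
          have h1 := congrArg (br P) heg
          rwa [H66.br_mulF hF hP hinvQ hinvP, br_br hQP.le] at h1
        obtain ⟨γ, hγ, hgγ, -⟩ := K9.H24.exists_blk
          (L := fun a : Subgroup.centralizer (P : Set G) → FF M => a) rfl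
          (fun a b => rfl) hIg.idem (by
            intro h
            apply hbrg
            exact H75.eq_of_res hIg.supp (fun _ _ => rfl) h)
        obtain ⟨γh, hγh⟩ : ∃ γh : G → FF M,
            γh = H75.ext0 (Subgroup.centralizer (P : Set G)) γ := ⟨_, rfl⟩
        have hγhs : ∀ x, x ∉ Subgroup.centralizer (P : Set G) → γh x = 0 := by
          rw [hγh]
          exact H75.ext0_supp _ γ
        have hγhC : (fun t : Subgroup.centralizer (P : Set G) => γh t) = γ := by
          rw [hγh]
          exact funext (H75.ext0_apply _ γ)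
        have hBγ : Bx (Subgroup.centralizer (P : Set G)) γh := ⟨hγhs, by rw [hγhC]; exact hγ⟩
        have hgγ' : mulF (br P g) γh = γh := by
          apply H75.eq_of_res (H75.mulF_supp _ hIg.supp hγhs) hγhs
          rw [H75.mulF_res _ γh hIg.supp, hγhC, hgγ]
        have heγ : mulF (br P e) γh = γh := by
          rw [← hgγ', ← H20.mulF_assoc, hPeg]
        have hcard : Nat.card Q < Nat.card P := by
          have h2 : (Q : Set G) ⊂ (P : Set G) := hQP
          have h3 := Set.ncard_lt_ncard h2 (Set.toFinite _)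
          rwa [← Nat.card_coe_set_eq, ← Nat.card_coe_set_eq] at h3
        obtain ⟨R, hR, hPR, hRC, hRV, hgR⟩ := ih (Nat.card V - Nat.card P) (by omega) P rfl hP γh
          ⟨hBγ.supp, hBγ.blk⟩ heγ
        refine ⟨R, hR, hQP.le.trans hPR, hRC.trans hCC, hRV, gd_of_br' ?_⟩
        intro h0
        have hinvR1 : H66.Inv R (br P g) := fun p hp t => ix_inv hIg (hRC hp) t
        have hinvR2 : H66.Inv R γh := fun p hp t => ix_inv hBγ.ix (hRC hp) t
        have h1 := congrArg (br R) hgγ'
        rw [H66.br_mulF hF hR hinvR1 hinvR2, br_br hPR, h0, H75.mulF_zero_left] at h1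
        exact br_ne_of_gd hgR h1.symm
  intro Q hQ g hg heg
  exact key _ Q rfl hQ g hg heg

end Pool.Agent.PP.C2.H3
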