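import Pool.Agent.Helper57_C2.Stmts
import Pool.Agent.Helper24_D2.Psb
import Pool.Agent.Helper9_PP.Pbk

/-!
# C2, module PSN: the image of a block modulo a central `ℓ`-subgroup is a block
-/

open scoped BigOperators

noncomputable section

namespace Pool.Agent.PP.C2.H3

open Pool.Agent.Helper51_AWC Pool.Agent.Helper79_WRA Pool.Agent.PP

section

variable {F A B : Type} [Field F] [Group A] [Group B] [Finite A] [Finite B]

theorem push_comp {C : Type} [Group C] [Finite C] (q : A →* C) (r : C →* B) (e : A → F) :
    H75.push (r.comp q) e = H75.push r (H75.push q e) := by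
  classical
  have := Fintype.ofFinite A
  have := Fintype.ofFinite C
  funext y
  have h1 : H75.push r (H75.push q e) y = ∑ c, H75.push q e c * (if r c = y then 1 else 0) := by
    rw [H75.push_eq]
    refine Finset.sum_congr rfl fun c _ => ?_
    split_ifs
    · rw [mul_one]
    · rw [mul_zero]
  rw [h1, H75.sum_push q e (fun c => if r c = y then 1 else 0), H75.push_eq]
  refine Finset.sum_congr rfl fun x _ => ?_
  change (if r (q x) = y then e x else 0) = _
  split_ifs
  · rw [mul_one]
  · rw [mul_zero]

theorem blk_push_inj {p : A →* B} (hp : Function.Surjective p) (hk : p.ker = ⊥) {e : A → F}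
    (he : IsBlk e) : IsBlk (H75.push p e) := by
  classical
  have := Fintype.ofFinite A
  have hinj : Function.Injective p := (MonoidHom.ker_eq_bot_iff p).1 hk
  let c : A ≃* B := MulEquiv.ofBijective p ⟨hinj, hp⟩
  have h1 : H75.push p e = fun b => e (c.symm b) := by
    funext b
    rw [H75.push_eq, Finset.sum_eq_single (c.symm b)]
    · rw [if_pos]
      exact c.apply_symm_apply b
    · intro x _ hx
      rw [if_neg]
      intro h
      apply hx
      rw [← h]
      exact (c.symm_apply_apply x).symm
    · intro h
      exact absurd (Finset.mem_univ _) h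
  rw [h1]
  exact H9.blk_tr c.symm he

end

theorem psn : PsnStmt := by
  intro ℓ _ F _ hF
  have key : ∀ n : ℕ, ∀ (A B : Type) [Group A] [Finite A] [Group B] [Finite B] (p : A →* B),
      Function.Surjective p → IsPGroup ℓ p.ker → p.ker ≤ Subgroup.center A →
      Nat.card A = n → ∀ e : A → F, IsBlk e → IsBlk (H75.push p e) := by
    intro n
    induction n using Nat.strong_induction_on with
    | _ n ih =>
      intro A B _ _ _ _ p hp hl hc hn e he
      by_cases hk : p.ker = ⊥
      · exact blk_push_inj hp hk he
      · have hnt : Nontrivial p.ker := (Subgroup.nontrivial_iff_ne_bot _).2 hk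
        have hdvd : ℓ ∣ Nat.card p.ker := by
          obtain ⟨k, hk'⟩ := (IsPGroup.iff_card).1 hl
          rcases Nat.eq_zero_or_pos k with h0 | h0
          · exfalso
            rw [h0, pow_zero] at hk'
            have := Finite.one_lt_card (α := p.ker)
            omega
          · rw [hk']
            exact dvd_pow_self _ h0.ne'
        obtain ⟨z, hz⟩ := exists_prime_orderOf_dvd_card' ℓ hdvd
        have hz' : orderOf (z : A) = ℓ := by rw [Subgroup.orderOf_coe, hz]
        have hzc : (z : A) ∈ Subgroup.center A := hc z.2
        have hZc : Subgroup.zpowers (z : A) ≤ Subgroup.center A :=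
          Subgroup.zpowers_le.2 hzc
        have hZn : (Subgroup.zpowers (z : A)).Normal := by
          refine ⟨fun x hx g => ?_⟩
          rw [Subgroup.mem_center_iff.1 (hZc hx) g, mul_inv_cancel_right]
          exact hx
        have hZk : Subgroup.zpowers (z : A) ≤ p.ker := Subgroup.zpowers_le.2 z.2
        let q : A →* A ⧸ Subgroup.zpowers (z : A) := QuotientGroup.mk' _
        have hq : Function.Surjective q := QuotientGroup.mk'_surjective _
        let r : A ⧸ Subgroup.zpowers (z : A) →* B :=
          QuotientGroup.lift _ p (fun x hx => hZk hx)
        have hrq : r.comp q = p := by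
          ext x
          rfl
        have hr : Function.Surjective r := by
          intro b
          obtain ⟨a, ha⟩ := hp b
          exact ⟨q a, ha⟩
        have hqb : IsBlk (H75.push q e) :=
          CD2.H24.psb ℓ F hF A _ q hq (z : A) hz' hzc (QuotientGroup.ker_mk' _) e he
        have hrk : r.ker = p.ker.map q := by
          ext y
          obtain ⟨x, rfl⟩ := hq y
          constructor
          · intro hy
            exact ⟨x, hy, rfl⟩
          · rintro ⟨x', hx', hxx⟩
            have h1 : r (q x') = 1 := hx'
            rw [hxx] at h1
            exact h1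
        have hcard : Nat.card (A ⧸ Subgroup.zpowers (z : A)) < n := by
          rw [← hn, Subgroup.card_eq_card_quotient_mul_card_subgroup (Subgroup.zpowers (z : A)),
            Nat.card_zpowers, hz']
          have h2 : 2 ≤ ℓ := (Fact.out : ℓ.Prime).two_le
          have h3 : 0 < Nat.card (A ⧸ Subgroup.zpowers (z : A)) := Nat.card_pos
          nlinarith
        have := ih _ hcard (A ⧸ Subgroup.zpowers (z : A)) B r hr (by rw [hrk]; exact hl.map q)
          (by
            rw [hrk]
            rintro y ⟨x, hx, rfl⟩
            rw [Subgroup.mem_center_iff]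
            intro w
            obtain ⟨w', rfl⟩ := hq w
            rw [← map_mul, ← map_mul, Subgroup.mem_center_iff.1 (hc hx) w']) rfl
          (H75.push q e) hqb
        rw [← push_comp, hrq] at this
        exact this
  intro A B _ _ _ _ p hp hl hc e he
  exact key _ A B p hp hl hc rfl e he

end Pool.Agent.PP.C2.H3
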