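import Pool.Agent.Helper57_C2.Stmts
import Pool.Agent.Helper35_K9.CHV
import Pool.Agent.Helper35_K9.CHQ
import Pool.Agent.Helper56_K9.EXP
import Pool.Agent.Helper75_K9.LBR
import Pool.Agent.Helper69_K9.Fmg

/-!
# C2, module CYC: blocks with defect groups of order `ℓ`
-/

open scoped BigOperators

noncomputable section

namespace Pool.Agent.PP.C2.H3

open Pool.Agent.Helper51_AWC Pool.Agent.Helper79_WRA Pool.Agent.PP Pool.Agent.PP.KF
open Pool.Agent.PP.K9

attribute [local instance] Ideal.Quotient.field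

theorem gd_of_br {F G : Type} [Field F] [Group G] {e : G → F} {R : Subgroup G}
    (h : br R e ≠ 0) : Gd e R := by
  by_contra h0
  apply h
  funext t
  by_cases ht : t ∈ Subgroup.centralizer (R : Set G)
  · rw [H66.br_of_mem ht]
    by_contra h1
    exact h0 ⟨t, ht, h1⟩
  · exact H66.br_of_not_mem ht

theorem cyc : CycStmt := by
  classical
  intro ℓ hℓ M _ hM G _ _ e he V hV hVc
  have hF : GoodF ℓ (FF M) := H50.fld ℓ hℓ.out M hM
  have hpr : ℓ.Prime := hℓ.out
  have hfin : Fintype (Subgroup G) := Fintype.ofFinite _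
  have hlt : ℓ < ℓ ^ 2 := by
    rw [pow_two]
    exact lt_mul_of_one_lt_left hpr.pos hpr.one_lt
  have hmx1 : ∀ Q : Subgroup G, IsPGroup ℓ Q → Gd e Q → Nat.card Q ≤ ℓ :=
    fun Q h1 h2 => hVc ▸ hV.mx Q h1 h2
  have hE := K9.H56.exp ℓ (FF M) hF G e he.1 (fun Q h1 h2 => (hmx1 Q h1 h2).trans hlt.le)
  have hpos : Pos ℓ e ⊤ := by
    intro x _ hx
    refine K9.H35.nil_of_good hF he (R := V) hVc hV.gd ?_
    rwa [inf_top_eq] at hx
  have hcy : CD2.CyO ℓ (⊤ : Subgroup G) e := by
    refine ⟨e, he.1, fun x hx => absurd (Subgroup.mem_top x) hx, he.1.2, ?_⟩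
    intro R _ hR hbr
    have h1 := hmx1 R hR (gd_of_br hbr)
    obtain ⟨k, hk⟩ := (IsPGroup.iff_card.1 hR)
    rw [hk] at h1
    have h2 : k ≤ 1 := by
      by_contra h3
      have h4 : ℓ ^ 2 ≤ ℓ ^ k := Nat.pow_le_pow_right hpr.pos (by omega)
      exact absurd (h4.trans h1) (not_le.2 hlt)
    rcases Nat.le_one_iff_eq_zero_or_eq_one.1 h2 with h3 | h3
    · rw [h3, pow_zero] at hk
      have : Subsingleton R := (Nat.card_eq_one_iff_unique.1 hk).1
      exact isCyclic_of_subsingleton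
    · rw [h3, pow_one] at hk
      exact isCyclic_of_prime_card hk
  have hyy := CD2.Asm.d2a_ ℓ (FF M) hF G ⊤ inferInstance e he.1 hpos hcy
  have lbr := K9.H75.lbr
  have hbad : ∀ W : Subgroup G, Nat.card W = ℓ ^ 2 → ¬ Gd e W := by
    intro W hW hg
    have := hmx1 W (IsPGroup.of_card (n := 2) hW) hg
    rw [hW] at this
    exact absurd hlt (not_lt.2 this)
  have e1 : ∑ᶠ (W : Subgroup G) (_ : Nat.card W = ℓ ^ 2),
        (Nat.card (Subgroup.normalizer (W : Set G)) : ℤ) *
          lnum (Subgroup.normalizer (W : Set G)) e = 0 := by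
    refine K9.H35.fz fun W => K9.H35.fz fun hW => ?_
    rw [(lbr ℓ (FF M) hF G e he.1 W (Subgroup.normalizer (W : Set G)) (IsPGroup.of_card (n := 2) hW)
      Subgroup.le_normalizer le_rfl).2 (hbad W hW), Nat.cast_zero, mul_zero]
  have e2 : ∑ᶠ (Q : Subgroup G) (_ : Nat.card Q = ℓ), ∑ᶠ (W : Subgroup G)
        (_ : Nat.card W = ℓ ^ 2 ∧ Q ≤ W),
        (Nat.card (Subgroup.normalizer (Q : Set G) ⊓ Subgroup.normalizer (W : Set G) :
          Subgroup G) : ℤ) *
          lnum (Subgroup.normalizer (Q : Set G) ⊓ Subgroup.normalizer (W : Set G)) e = 0 := by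
    refine K9.H35.fz fun R => K9.H35.fz fun _ =>
      K9.H35.fz fun W => K9.H35.fz fun hW => ?_
    rw [(lbr ℓ (FF M) hF G e he.1 W (Subgroup.normalizer (R : Set G) ⊓
      Subgroup.normalizer (W : Set G)) (IsPGroup.of_card (n := 2) hW.1)
      (le_inf (K9.H35.le_norm_of_sq hW.1 hW.2) Subgroup.le_normalizer) inf_le_right).2
        (hbad W hW.1), Nat.cast_zero, mul_zero]
  rw [hyy, e1, e2, add_zero, sub_zero] at hE
  have hW : ∑ᶠ (W : Subgroup G) (_ : Nat.card W = ℓ),
        (Nat.card (Subgroup.normalizer (W : Set G)) : ℤ) *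
          lnum (Subgroup.normalizer (W : Set G)) e =
      (Nat.card G : ℤ) * (lnum (Subgroup.normalizer (V : Set G)) e : ℤ) := by
    rw [finsum_eq_sum_of_fintype]
    simp only [finsum_eq_if]
    rw [← Finset.sum_filter]
    have h1 : Finset.univ.filter (fun W : Subgroup G => K9.H35.CJ V W) ⊆
        Finset.univ.filter (fun W : Subgroup G => Nat.card W = ℓ) := by
      intro W hW
      obtain ⟨-, g, rfl⟩ := Finset.mem_filter.1 hW
      exact Finset.mem_filter.2 ⟨Finset.mem_univ _, (card_conjS g V).trans hVc⟩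
    rw [← Finset.sum_subset h1]
    · have h2 : ∀ W ∈ Finset.univ.filter (fun W : Subgroup G => K9.H35.CJ V W),
          (Nat.card (Subgroup.normalizer (W : Set G)) : ℤ) *
            lnum (Subgroup.normalizer (W : Set G)) e =
          (Nat.card (Subgroup.normalizer (V : Set G)) : ℤ) *
            lnum (Subgroup.normalizer (V : Set G)) e := by
        intro W hW
        obtain ⟨-, g, rfl⟩ := Finset.mem_filter.1 hW
        rw [BN.H9.norm_conjS, card_conjS, K9.H35.lnum_conjS he.1.1]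
      rw [Finset.sum_congr rfl h2, Finset.sum_const, nsmul_eq_mul, ← mul_assoc,
        ← K9.H35.card_conj V]
      push_cast
      ring
    · intro W hW hW2
      obtain ⟨-, hWc⟩ := Finset.mem_filter.1 hW
      have hWp : IsPGroup ℓ W := IsPGroup.of_card (n := 1) (by rw [hWc, pow_one])
      have h3 : ¬ Gd e W := by
        intro hg
        obtain ⟨g, hg2⟩ := (K9.H69.fmg ℓ M hM G e he V hV).1 W hWp hg
        apply hW2
        refine Finset.mem_filter.2 ⟨Finset.mem_univ _, g, ?_⟩
        refine Subgroup.eq_of_le_of_card_ge hg2 ?_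
        rw [card_conjS, hVc, hWc]
      rw [(lbr ℓ (FF M) hF G e he.1 W (Subgroup.normalizer (W : Set G)) hWp
        Subgroup.le_normalizer le_rfl).2 h3, Nat.cast_zero, mul_zero]
  rw [hW, K9.H35.lnum_top, (lbr ℓ (FF M) hF G e he.1 V (Subgroup.normalizer (V : Set G)) hV.pg
    Subgroup.le_normalizer le_rfl).1] at hE
  have h5 : lnum (Subgroup.normalizer (V : Set G)) (br V e) =
      lb (fun t : Subgroup.normalizer (V : Set G) => br V e t) := rfl
  rw [h5] at hE
  have hG : (Nat.card G : ℤ) ≠ 0 := by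
    have : 0 < Nat.card G := Nat.card_pos
    exact_mod_cast this.ne'
  have h6 : (Nat.card G : ℤ) * (lb e : ℤ) = (Nat.card G : ℤ) *
      (lb (fun t : Subgroup.normalizer (V : Set G) => br V e t) : ℤ) := by
    have h7 : (0 : ℤ) = (Nat.card G : ℤ) * (lb e : ℤ) - (Nat.card G : ℤ) *
      (lb (fun t : Subgroup.normalizer (V : Set G) => br V e t) : ℤ) := hE
    linarith
  exact_mod_cast mul_left_cancel₀ hG h6

end Pool.Agent.PP.C2.H3
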